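import Mathlib

/-!
# MP_89fcdb_gt: the definitions used by the final statement

Singular homology with integer coefficients (absolute and relative to the complement of a point),
fundamental classes of closed manifolds, and the Lusternik-Schnirelmann category.
-/

open scoped BigOperators

namespace Pool.Agent.Lib.MP_89fcdb_gt

noncomputable section

/-! ## Singular chains -/

/-- Singular `n`-simplices of `X`: continuous maps from the standard simplex to `X`. -/
abbrev Sing (n : ℕ) (X : Type) [TopologicalSpace X] : Type := C(stdSimplex ℝ (Fin (n + 1)), X)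

/-- Singular `n`-chains of `X` with integer coefficients. -/
abbrev Chain (n : ℕ) (X : Type) [TopologicalSpace X] : Type := Sing n X →₀ ℤ

variable {X Y : Type} [TopologicalSpace X] [TopologicalSpace Y]

/-- The `i`-th face of a singular simplex (the face opposite to the `i`-th vertex). -/
def Sing.face {n : ℕ} (σ : Sing (n + 1) X) (i : Fin (n + 2)) : Sing n X :=
  ContinuousMap.comp σ ⟨stdSimplex.map i.succAbove, stdSimplex.continuous_map i.succAbove⟩

/-- The boundary of a singular chain: `∂σ = ∑ (-1)^i σ ∘ d^i`. -/
def bdry (n : ℕ) : Chain (n + 1) X →+ Chain n X :=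
  Finsupp.liftAddHom (fun σ => ∑ i : Fin (n + 2),
    (Finsupp.singleAddHom (σ.face i)).comp (AddMonoidHom.mulLeft ((-1) ^ (i : ℕ))))

/-- The chain map induced by a continuous map. -/
def push (n : ℕ) (f : C(X, Y)) : Chain n X →+ Chain n Y :=
  Finsupp.mapDomain.addMonoidHom (fun σ : Sing n X => ContinuousMap.comp f σ)

/-- The chains supported in a subset `S`: combinations of singular simplices with image in `S`. -/
def chainsIn (n : ℕ) (S : Set X) : AddSubgroup (Chain n X) :=
  (Finsupp.supported ℤ ℤ {σ : Sing n X | Set.range σ ⊆ S}).toAddSubgroup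

/-- Relative cycles of `(X, S)` in degree `n + 1`: chains whose boundary lies in `S`. -/
def relCyc (n : ℕ) (S : Set X) : AddSubgroup (Chain (n + 1) X) :=
  (chainsIn n S).comap (bdry n)

/-- Relative boundaries of `(X, S)` in degree `n`: boundaries plus chains in `S`. -/
def relBdr (n : ℕ) (S : Set X) : AddSubgroup (Chain n X) :=
  (bdry n).range ⊔ chainsIn n S

/-- Two chains are homologous in `X` if they differ by a boundary. -/
def Homologous {n : ℕ} (c d : Chain n X) : Prop := ∃ b : Chain (n + 1) X, bdry n b = c - d

/-- **Fundamental cycles.** A cycle `c` of degree `n + 1` of an `(n + 1)`-manifold `X` represents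
a fundamental class if for every point `x` its image in `H_{n+1}(X, X ∖ {x}; ℤ)` (relative cycles
modulo relative boundaries) generates this infinite cyclic group. -/
def IsFundamental {n : ℕ} (c : Chain (n + 1) X) : Prop :=
  bdry n c = 0 ∧
    ∀ x : X, ∀ z ∈ relCyc n ({x}ᶜ : Set X), ∃ k : ℤ, z - k • c ∈ relBdr (n + 1) ({x}ᶜ : Set X)

/-! ## Lusternik-Schnirelmann category -/

/-- A subset is contractible in `X` if its inclusion is null-homotopic. -/
def ContractibleIn (U : Set X) : Prop :=
  (⟨Subtype.val, continuous_subtype_val⟩ : C(U, X)).Nullhomotopic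

/-- `X` is a union of `k + 1` open sets, each contractible in `X`. -/
def CatLE (X : Type) [TopologicalSpace X] (k : ℕ) : Prop :=
  ∃ U : Fin (k + 1) → Set X, (∀ i, IsOpen (U i)) ∧ (∀ i, ContractibleIn (U i)) ∧
    ⋃ i, U i = Set.univ

/-- The Lusternik-Schnirelmann category (normalised: contractible spaces have category `0`). -/
def lsCat (X : Type) [TopologicalSpace X] : ℕ∞ := sInf {k : ℕ∞ | ∃ m : ℕ, k = m ∧ CatLE X m}

/-- A closed connected topological manifold of dimension `n`. -/
structure IsClosedManifold (n : ℕ) (X : Type) [TopologicalSpace X] : Prop where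
  compact : CompactSpace X
  t2 : T2Space X
  connected : ConnectedSpace X
  charted : Nonempty (ChartedSpace (EuclideanSpace ℝ (Fin n)) X)

/-- The main statement: in dimension `8` there are closed connected oriented manifolds `M`, `N`
and a map `f : M → N` of degree one with `cat(M) ≤ 5 < 6 ≤ cat(N)`. -/
def MainStatement : Prop :=
  ∃ (M N : Type) (_ : TopologicalSpace M) (_ : TopologicalSpace N),
    IsClosedManifold 8 M ∧ IsClosedManifold 8 N ∧
    ∃ (μ : Chain 8 M) (ν : Chain 8 N) (f : C(M, N)), IsFundamental μ ∧ IsFundamental ν ∧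
      Homologous (push 8 f μ) ν ∧ lsCat M ≤ 5 ∧ 6 ≤ lsCat N

end

end Pool.Agent.Lib.MP_89fcdb_gt
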