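import Pool.Agent.Lib.MP_904b2a_gt.SmallC
import Pool.Agent.Lib.MP_904b2a_gt.Interfaces2
import Pool.Agent.Lib.MP_89fcdb_gt.Stmt

/-!
# MP_89fcdb_gt: definitions used in the proof (spaces, cochains modulo 2, involutions)
-/

open scoped BigOperators
open Set Pool.Agent.Lib.MP_904b2a_gt

namespace Pool.Agent.Lib.MP_89fcdb_gt

noncomputable section

/-! ## Cochains modulo 2 -/

/-- The field with two elements. -/
abbrev F2 : Type := ZMod 2

section Cochains

variable {X Y : Type} [TopologicalSpace X] [TopologicalSpace Y]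

/-- The cup product of cochains modulo 2 (meaningful for `p + q = n`). -/
def cu (p q n : ℕ) (φ : Coch p X F2) (ψ : Coch q X F2) : Coch n X F2 :=
  fun σ => φ (σ.comp (smap (frontv p n))) * ψ (σ.comp (smap (backv q n)))

/-- The powers of a `1`-cochain. -/
def pw (ω : Coch 1 X F2) : ∀ k : ℕ, Coch k X F2
  | 0 => fun _ => 1
  | (k + 1) => cu 1 k (k + 1) ω (pw ω k)

/-- A space with a free involution. -/
structure Invol (X : Type) [TopologicalSpace X] where
  τ : C(X, X)
  sq : ∀ x, τ (τ x) = x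
  free : ∀ x, τ x ≠ x

variable (T : Invol X) (T' : Invol Y)

/-- Invariant cochains. -/
def Invol.IsInv {n : ℕ} (φ : Coch n X F2) : Prop := ∀ σ, φ (T.τ.comp σ) = φ σ

/-- Invariant cocycles. -/
def Invol.ZI {n : ℕ} (φ : Coch n X F2) : Prop := T.IsInv φ ∧ cob n φ = 0

/-- Coboundaries of invariant cochains. -/
def Invol.BI {n : ℕ} (φ : Coch (n + 1) X F2) : Prop := ∃ ψ : Coch n X F2, T.IsInv ψ ∧ cob n ψ = φ

/-- The transfer of a cochain. -/
def Invol.tr (n : ℕ) (φ : Coch n X F2) : Coch n X F2 := φ + pbC n T.τ φ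

/-- A `0`-cochain which separates the points of every orbit. -/
def Invol.Sep (s : Coch 0 X F2) : Prop := ∀ σ, s (T.τ.comp σ) = s σ + 1

/-- Equivariant maps. -/
def Equi (f : C(X, Y)) : Prop := ∀ x, f (T.τ x) = T'.τ (f x)

/-- Equivariant homotopies. -/
def EquiHomotopic (f₀ f₁ : C(X, Y)) : Prop :=
  ∃ F : f₀.Homotopy f₁, ∀ t x, F (t, T.τ x) = T'.τ (F (t, x))

/-- The restriction of an involution to an invariant subset. -/
def Invol.res (U : Set X) (hU : ∀ x ∈ U, T.τ x ∈ U) : Invol U where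
  τ := ⟨fun x => ⟨T.τ x, hU x x.2⟩, by fun_prop⟩
  sq x := Subtype.ext (T.sq x)
  free x h := T.free x (congrArg Subtype.val h)

/-- The orbit relation. -/
def Invol.setoid : Setoid X where
  r x y := y = x ∨ y = T.τ x
  iseqv :=
    { refl := fun _ => Or.inl rfl
      symm := by
        rintro x y (rfl | rfl)
        · exact Or.inl rfl
        · exact Or.inr (T.sq x).symm
      trans := by
        rintro x y z (rfl | rfl) (rfl | rfl)
        · exact Or.inl rfl
        · exact Or.inr rfl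
        · exact Or.inr rfl
        · exact Or.inl (T.sq x) }

/-- The orbit space. -/
abbrev Invol.Q : Type := Quotient T.setoid

/-- The projection onto the orbit space. -/
def Invol.proj : C(X, T.Q) := ⟨Quotient.mk T.setoid, continuous_quotient_mk'⟩

end Cochains

/-! ## The spaces -/

/-- The squared norm on `ℂ³`. -/
def n3 (u : ℂ × ℂ × ℂ) : ℝ :=
  Complex.normSq u.1 + Complex.normSq u.2.1 + Complex.normSq u.2.2

/-- The hermitian product on `ℂ³` (conjugate linear in the first variable). -/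
def h3 (u v : ℂ × ℂ × ℂ) : ℂ :=
  (starRingEnd ℂ) u.1 * v.1 + (starRingEnd ℂ) u.2.1 * v.2.1 + (starRingEnd ℂ) u.2.2 * v.2.2

/-- The `3`-sphere. -/
abbrev S3 : Type := {q : ℂ × ℂ // Complex.normSq q.1 + Complex.normSq q.2 = 1}

/-- The `5`-sphere. -/
abbrev S5 : Type := {u : ℂ × ℂ × ℂ // n3 u = 1}

/-- The Stiefel manifold of orthonormal pairs in `ℂ³`. -/
abbrev P : Type := {p : (ℂ × ℂ × ℂ) × (ℂ × ℂ × ℂ) // n3 p.1 = 1 ∧ n3 p.2 = 1 ∧ h3 p.1 p.2 = 0}

/-- The `S³`-bundle `B` over `S² = {(r, z)}`, with `u` in the line given by `(r, z)` plus `ℂ`. -/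
abbrev B : Type := {b : ℝ × ℂ × (ℂ × ℂ × ℂ) // b.1 ^ 2 + Complex.normSq b.2.1 = 1 ∧ n3 b.2.2 = 1 ∧
  b.2.1 * b.2.2.2.1 = (1 - b.1) * b.2.2.1 ∧
  (starRingEnd ℂ) b.2.1 * b.2.2.1 = (1 + b.1) * b.2.2.2.1}

theorem n3_neg (u : ℂ × ℂ × ℂ) : n3 (-u) = n3 u := by
  simp [n3]

theorem h3_neg_right (u v : ℂ × ℂ × ℂ) : h3 u (-v) = -h3 u v := by
  simp [h3]
  ring

/-- The antipodal map of `S³`. -/
def TS3 : Invol S3 where
  τ := ⟨fun q => ⟨-q.1, by simpa using q.2⟩, by fun_prop⟩
  sq q := Subtype.ext (neg_neg _)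
  free q h := by
    have h1 : -q.1 = q.1 := congrArg Subtype.val h
    have h2 : q.1.1 = 0 := by
      have := congrArg Prod.fst h1
      exact self_eq_neg.mp this.symm
    have h3 : q.1.2 = 0 := by
      have := congrArg Prod.snd h1
      exact self_eq_neg.mp this.symm
    have h4 := q.2
    rw [h2, h3] at h4
    simp at h4

/-- The involution `(u, v) ↦ (u, -v)` of `P`. -/
def TP : Invol P where
  τ := ⟨fun p => ⟨(p.1.1, -p.1.2), p.2.1, by rw [n3_neg]; exact p.2.2.1, by
    rw [h3_neg_right, p.2.2.2, neg_zero]⟩, by fun_prop⟩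
  sq p := Subtype.ext (Prod.ext rfl (neg_neg _))
  free p h := by
    have h1 : -p.1.2 = p.1.2 := congrArg (fun x : P => x.1.2) h
    have h2 : p.1.2.1 = 0 := self_eq_neg.mp (congrArg Prod.fst h1).symm
    have h3 : p.1.2.2.1 = 0 := self_eq_neg.mp (congrArg (fun x : ℂ × ℂ × ℂ => x.2.1) h1).symm
    have h4 : p.1.2.2.2 = 0 := self_eq_neg.mp (congrArg (fun x : ℂ × ℂ × ℂ => x.2.2) h1).symm
    have h5 := p.2.2.1
    unfold n3 at h5
    rw [h2, h3, h4] at h5
    simp at h5

/-- The antipodal map of the unit sphere of `ℝ^{n+1}`. -/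
def TE (n : ℕ) : Invol (ES n) where
  τ := ⟨fun x => -x, continuous_neg⟩
  sq x := neg_neg x
  free x h := by
    have h1 : -(x : EuclideanSpace ℝ (Fin (n + 1))) = x := congrArg Subtype.val h
    have h2 : (x : EuclideanSpace ℝ (Fin (n + 1))) = 0 := by
      have h4 : (2 : ℝ) • (x : EuclideanSpace ℝ (Fin (n + 1))) = 0 := by
        rw [two_smul]
        nth_rewrite 1 [← h1]
        exact neg_add_cancel _
      exact (smul_eq_zero.mp h4).resolve_left two_ne_zero
    have h3 : ‖(x : EuclideanSpace ℝ (Fin (n + 1)))‖ = 1 := mem_sphere_zero_iff_norm.mp x.2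
    rw [h2, norm_zero] at h3
    exact zero_ne_one h3

/-- Real projective `3`-space. -/
abbrev RP3 : Type := TS3.Q

/-- The manifold `N`. -/
abbrev N8 : Type := TP.Q

/-- The manifold `M`. -/
abbrev M8 : Type := RP3 × B

/-- The first vector. -/
def uP : C(P, S5) := ⟨fun p => ⟨p.1.1, p.2.1⟩, by fun_prop⟩

/-- The second vector. -/
def vP : C(P, S5) := ⟨fun p => ⟨p.1.2, p.2.2.1⟩, by fun_prop⟩

/-- The fibre of `P` over `(1, 0, 0)`. -/
def iP : C(S3, P) := ⟨fun q => ⟨((1, 0, 0), (0, q.1.1, q.1.2)), by simp [n3], by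
  simpa [n3] using q.2, by simp [h3]⟩, by fun_prop⟩

end

end Pool.Agent.Lib.MP_89fcdb_gt
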