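import Pool.Agent.Lib.MP_89fcdb_gt.Defs

/-!
# MP_89fcdb_gt: interfaces between the modules (statements only)
-/

open scoped BigOperators
open Set Topology Pool.Agent.Lib.MP_904b2a_gt

namespace Pool.Agent.Lib.MP_89fcdb_gt

noncomputable section

/-! ## Part I: the lower bound (mod 2 cochains, invariant cochains) -/

/-- [SPH] facts on `S^n` with the antipodal map, `n ≥ 1`. -/
def SphStatement : Prop :=
  ∀ n : ℕ, 1 ≤ n →
    (∀ m : ℕ, 1 ≤ m → m ≠ n → ∀ u : H m (ES n) F2, u = 0) ∧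
    (∃ g : H n (ES n) F2, g ≠ 0 ∧ ∀ u : H n (ES n) F2, u = 0 ∨ u = g) ∧
    (∀ s : Coch 0 (ES n) F2, (TE n).Sep s →
      (TE n).BI (pw (cob 0 s) (n + 1)) ∧
      (∀ m : ℕ, m + 1 = n → ∀ c : Coch (m + 1) (ES n) F2, c = pw (cob 0 s) (m + 1) →
        ¬ (TE n).BI c) ∧
      ∀ m : ℕ, n ≤ m → ∀ c : Coch (m + 1) (ES n) F2, (TE n).ZI c → (TE n).BI c)

/-- [PC] the mod 2 cohomology of `P`. -/
def PCStatement : Prop :=
  (∀ m : ℕ, m = 1 ∨ m = 2 ∨ m = 4 ∨ m = 6 ∨ m = 7 → ∀ x : H m P F2, x = 0) ∧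
  Function.Bijective (H.pb (n := 3) (A := F2) iP) ∧
  (∀ x : H 5 P F2, ∃ y : H 5 S5 F2, x = H.pb uP y) ∧
  Function.Injective (H.pb (n := 5) (A := F2) uP) ∧
  Function.Injective (H.pb (n := 5) (A := F2) vP)

/-- [CORE] the final result of Part I. -/
def CoreStatement : Prop :=
  ∀ φ : C(P, ES 5), (∀ p, φ (TP.τ p) = -φ p) →
    ¬ (ContinuousMap.mk (Subtype.val : {p : P | 0 < (φ p).1 5} → P)
      continuous_subtype_val).Nullhomotopic

/-- [CAT] small category gives an odd map. -/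
def CatNStatement : Prop :=
  CatLE N8 5 → ∃ φ : C(P, ES 5), (∀ p, φ (TP.τ p) = -φ p) ∧
    (ContinuousMap.mk (Subtype.val : {p : P | 0 < (φ p).1 5} → P)
      continuous_subtype_val).Nullhomotopic

/-! ## Part II: the upper bound -/

/-- [CPROD] the product inequality. -/
def CatProdStatement : Prop :=
  ∀ (X Y : Type) [TopologicalSpace X] [TopologicalSpace Y] [CompactSpace X] [CompactSpace Y]
    [T2Space X] [T2Space Y] [PathConnectedSpace X] [PathConnectedSpace Y] (m n : ℕ),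
    CatLE X m → CatLE Y n → CatLE (X × Y) (m + n)

/-- [CB] the category of `B`. -/
def CatBStatement : Prop := CatLE B 2

/-- [CRP] the category of `RP³`. -/
def CatRPStatement : Prop := CatLE RP3 3

/-! ## Part III: topology of the spaces -/

/-- `X` is locally homeomorphic to `ℝ^n`. -/
def LocEuc (n : ℕ) (X : Type) [TopologicalSpace X] : Prop :=
  ∀ x : X, ∃ j : (Fin n → ℝ) → X, IsOpenEmbedding j ∧ j 0 = x

/-- [CHART] -/
def ChartStatement : Prop :=
  ∀ (n : ℕ) (X : Type) [TopologicalSpace X], LocEuc n X →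
    Nonempty (ChartedSpace (EuclideanSpace ℝ (Fin n)) X)

/-- [QUOT] general facts on orbit spaces of free involutions of compact Hausdorff spaces. -/
def QuotStatement : Prop :=
  ∀ (X : Type) [TopologicalSpace X] [CompactSpace X] [T2Space X] (T : Invol X),
    CompactSpace T.Q ∧ T2Space T.Q ∧ IsOpenMap T.proj ∧ IsCoveringMap T.proj ∧
      (∀ n, LocEuc n X → LocEuc n T.Q)

/-- [TS3] punctured three-sphere. -/
def TrivS3Statement : Prop :=
  ∀ q : S3, ∃ j : (Fin 3 → ℝ) → S3, IsOpenEmbedding j ∧ j 0 = q ∧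
    range j = {p : S3 | p ≠ TS3.τ q}

/-- [TP] the part `u₁ ≠ -1` of `P`. -/
def TrivPStatement : Prop :=
  ∃ j : C(S3 × (Fin 5 → ℝ), P), IsOpenEmbedding j ∧ range j = {p : P | p.1.1.1 ≠ -1} ∧
    (∀ w t, j (TS3.τ w, t) = TP.τ (j (w, t))) ∧ (∀ w, j (w, 0) = iP w) ∧
    (∀ w t, t = 0 ↔ (j (w, t)).1.1.1 = 1) ∧ ∀ w w' t, uP (j (w, t)) = uP (j (w', t))

/-- [TB] the part `r ≠ -1` of `B`. -/
def TrivBStatement : Prop :=
  ∃ j : C(S3 × (Fin 2 → ℝ), B), IsOpenEmbedding j ∧ range j = {b : B | b.1.1 ≠ -1} ∧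
    ∀ w t, t = 0 ↔ (j (w, t)).1.1 = 1

/-- [TC] the part `q₁ ≠ 0` of `RP³` (`S = S¹`, the circle `q₂ = 0` corresponds to `t = 0`). -/
def TrivRPStatement : Prop :=
  ∃ j : C(Circle × (Fin 2 → ℝ), RP3), IsOpenEmbedding j ∧
    (∀ q : S3, TS3.proj q ∈ range j ↔ q.1.1 ≠ 0) ∧
    ∀ (q : S3) (w : Circle) (t : Fin 2 → ℝ), j (w, t) = TS3.proj q → (t = 0 ↔ q.1.2 = 0)

/-- [TOP] elementary topological properties. -/
def TopStatement : Prop :=
  (CompactSpace S3 ∧ PathConnectedSpace S3) ∧ (CompactSpace P ∧ PathConnectedSpace P) ∧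
    (CompactSpace B ∧ PathConnectedSpace B)

/-- [CLOSED] `M` and `N` are closed connected `8`-manifolds. -/
def ManStatement : Prop :=
  (CompactSpace M8 ∧ T2Space M8 ∧ ConnectedSpace M8 ∧ LocEuc 8 M8) ∧
    (CompactSpace N8 ∧ T2Space N8 ∧ ConnectedSpace N8 ∧ LocEuc 8 N8)

/-- `f` is a homeomorphism over a neighbourhood of `f x₀`. -/
def LocHomeo {X Y : Type} [TopologicalSpace X] [TopologicalSpace Y] (f : C(X, Y)) (x₀ : X) : Prop :=
  ∃ V : Set X, IsOpen V ∧ x₀ ∈ V ∧ f ⁻¹' (f '' V) = V ∧ InjOn f V ∧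
    ∀ W : Set X, W ⊆ V → IsOpen W → IsOpen (f '' W)

/-- [F] the map `M → N`. -/
def MapStatement : Prop := ∃ (f : C(M8, N8)) (x₀ : M8), LocHomeo f x₀

/-! ## Part IV: integral classes, by cohomology with all coefficients -/

/-- `H^n(X; A) = 0` for all `A`. -/
def Van (n : ℕ) (X : Type) [TopologicalSpace X] : Prop :=
  ∀ (A : Type) [AddCommGroup A] (u : H n X A), u = 0

/-- `H^n(X, X ∖ x; A) → H^n(X; A)` is bijective for all `A`. -/
def Fund (n : ℕ) (X : Type) [TopologicalSpace X] (x : X) : Prop :=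
  ∀ (A : Type) [AddCommGroup A],
    Function.Bijective (HR.toH (n := n) (S := ({x}ᶜ : Set X)) (A := A))

/-- The subset `S × ℝ^d ∪ Z × (ℝ^d ∖ 0)` of `Z × ℝ^d`. -/
def thomSet (d : ℕ) {Z : Type} (S : Set Z) : Set (Z × (Fin d → ℝ)) := {p | p.1 ∈ S ∨ p.2 ≠ 0}

/-- The map `f × id`. -/
def prodId (d : ℕ) {Z Z' : Type} [TopologicalSpace Z] [TopologicalSpace Z'] (f : C(Z, Z')) :
    C(Z × (Fin d → ℝ), Z' × (Fin d → ℝ)) := ⟨fun p => (f p.1, p.2), by fun_prop⟩

theorem prodId_mapsTo (d : ℕ) {Z Z' : Type} [TopologicalSpace Z] [TopologicalSpace Z']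
    {f : C(Z, Z')} {S : Set Z} {S' : Set Z'} (h : MapsTo f S S') :
    MapsTo (prodId d f) (thomSet d S) (thomSet d S') := by
  rintro ⟨z, t⟩ (hz | ht)
  · exact Or.inl (h hz)
  · exact Or.inr ht

/-- [TH] the suspension (Thom) isomorphism for trivial bundles, natural in pairs and in the
coefficients. -/
def ThomStatement : Prop :=
  ∃ Θ : ∀ (d : ℕ) (Z : Type) [TopologicalSpace Z] (S : Set Z) (m : ℕ) (A : Type)
    [AddCommGroup A], HR m S A →+ HR (m + d) (thomSet d S) A,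
    (∀ (d : ℕ) (Z : Type) [TopologicalSpace Z] (S : Set Z) (m : ℕ) (A : Type) [AddCommGroup A],
      IsOpen S → Function.Bijective (Θ d Z S m A)) ∧
    (∀ (d : ℕ) (Z Z' : Type) [TopologicalSpace Z] [TopologicalSpace Z'] (f : C(Z, Z'))
      (S : Set Z) (S' : Set Z') (h : MapsTo f S S'), IsOpen S → IsOpen S' →
      ∀ (m : ℕ) (A : Type) [AddCommGroup A] (u : HR m S' A),
      Θ d Z S m A (HR.pb f h u) = HR.pb (prodId d f) (prodId_mapsTo d h) (Θ d Z' S' m A u)) ∧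
    (∀ (d : ℕ) (Z : Type) [TopologicalSpace Z] (S : Set Z) (m : ℕ) (A A' : Type)
      [AddCommGroup A] [AddCommGroup A'] (g : A →+ A') (u : HR m S A),
      Θ d Z S m A' (HR.cm g u) = HR.cm g (Θ d Z S m A u)) ∧
    ∀ (d : ℕ) (Z : Type) [TopologicalSpace Z] (S : Set Z) (m : ℕ) (A : Type) [AddCommGroup A],
      IsOpen S → m < d → ∀ u : HR m (thomSet d S) A, u = 0

/-- [GS] passing from a fibre `F` (with a product neighbourhood) to the total space. -/
def GSStatement : Prop :=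
  ∀ (X F : Type) [TopologicalSpace X] [TopologicalSpace F] [T1Space F] (d m : ℕ)
    (j : C(F × (Fin d → ℝ), X)), IsOpenEmbedding j → 1 ≤ d →
    IsClosed (j '' {p | p.2 = 0}) →
    (Van (m + d) ↥(j '' {p | p.2 = 0})ᶜ → Van m F → Van (m + d) X) ∧
    (Van (m + d) ↥(j '' {p | p.2 = 0})ᶜ → (1 ≤ m + d - 1) →
      Van (m + d - 1) ↥(j '' {p | p.2 = 0})ᶜ → ∀ x, Fund m F x → Fund (m + d) X (j (x, 0)))

/-- [FUNDS] the two computations. -/
def FundStatement : Prop :=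
  (∃ x : M8, Fund 8 M8 x) ∧ ∃ y : N8, Fund 8 N8 y

/-- [LOC] independence of the point. -/
def LocStatement : Prop :=
  ∀ (n : ℕ) (X : Type) [TopologicalSpace X] [T2Space X] [ConnectedSpace X], LocEuc (n + 1) X →
    ∀ x₀, Fund (n + 1) X x₀ → ∀ x, Fund (n + 1) X x

/-- A universal class in relative cohomology: `A → H^n(X, S; A)` is bijective for all `A`. -/
def IsUniv {n : ℕ} {X : Type} [TopologicalSpace X] {S : Set X} (ι : HR n S ℤ) : Prop :=
  ∀ (A : Type) [AddCommGroup A],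
    Function.Bijective (fun a : A => HR.cm (zmultiplesHom A a) ι)

/-- [LOCGEN] local classes of a manifold. -/
def LocGenStatement : Prop :=
  ∀ (n : ℕ) (X : Type) [TopologicalSpace X] [T2Space X], LocEuc (n + 1) X →
    ∀ x : X, ∃ ι : HR (n + 1) ({x}ᶜ : Set X) ℤ, IsUniv ι

/-- [LH] a local homeomorphism over one point induces an isomorphism in the top degree. -/
def LHStatement : Prop :=
  ∀ (n : ℕ) (X Y : Type) [TopologicalSpace X] [TopologicalSpace Y] [T2Space X] [T2Space Y]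
    (f : C(X, Y)) (x₀ : X), LocHomeo f x₀ → Fund n X x₀ → Fund n Y (f x₀) →
    ∀ (A : Type) [AddCommGroup A], Function.Bijective (H.pb (n := n) (A := A) f)

/-- [UC1] from cohomology to homology: pairs. -/
def UC1Statement : Prop :=
  ∀ (n : ℕ) (X : Type) [TopologicalSpace X] (S : Set X),
    (∀ (A : Type) [AddCommGroup A],
      Function.Bijective (HR.toH (n := n + 1) (S := S) (A := A))) →
    (∀ z ∈ relCyc n S, ∃ c : Chain (n + 1) X, bdry n c = 0 ∧ z - c ∈ relBdr (n + 1) S) ∧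
      ∀ c : Chain (n + 1) X, bdry n c = 0 → c ∈ relBdr (n + 1) S → Homologous c 0

/-- [UC2] from cohomology to homology: maps. -/
def UC2Statement : Prop :=
  ∀ (n : ℕ) (X Y : Type) [TopologicalSpace X] [TopologicalSpace Y] (f : C(X, Y)),
    (∀ (A : Type) [AddCommGroup A], Function.Bijective (H.pb (n := n + 1) (A := A) f)) →
    ∀ d : Chain (n + 1) Y, bdry n d = 0 →
      ∃ c : Chain (n + 1) X, bdry n c = 0 ∧ Homologous (push (n + 1) f c) d

/-- [UC3] from cohomology to homology: universal classes. -/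
def UC3Statement : Prop :=
  ∀ (n : ℕ) (X : Type) [TopologicalSpace X] (S : Set X) (ι : HR (n + 1) S ℤ), IsUniv ι →
    ∃ g ∈ relCyc n S, ∀ z ∈ relCyc n S, ∃ k : ℤ, z - k • g ∈ relBdr (n + 1) S

/-- [DEG] the conclusion of Part IV. -/
def DegStatement : Prop :=
  ∃ (μ : Chain 8 M8) (ν : Chain 8 N8) (f : C(M8, N8)),
    IsFundamental μ ∧ IsFundamental ν ∧ Homologous (push 8 f μ) ν

end

end Pool.Agent.Lib.MP_89fcdb_gt
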